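import Pool.Agent.Y243.AbSq.Img

/-!
# Words over a fixed small alphabet with more than `C n ^ (3 / 2)` inequivalent abelian squares

Over an alphabet with `k` letters, for all large `n`, some word of length `n` contains more than
`n ^ β` inequivalent abelian squares, for every `β < k log 27 / (k log (27 / 4) + log 27)`; for
`k = 12` this exceeds `3 / 2`.
-/

set_option autoImplicit false

namespace Pool.Agent.Results.MP_72cd34_co.FixedAlphabet

open Filter Topology Pool.Agent.Y243.AbSq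

section Defs

variable {α : Type} [DecidableEq α]

/-- The Parikh vector of a word. -/
def parikh (w : List α) : α → ℕ := fun a => w.count a

/-- Abelian squares: nonempty words `uv` such that `u` and `v` have the same Parikh vector. -/
def IsAbelianSquare (s : List α) : Prop := s ≠ [] ∧ ∃ u v, s = u ++ v ∧ parikh u = parikh v

/-- The number of pairwise inequivalent abelian squares contained in `w`: the number of Parikh
vectors of abelian squares that are factors of `w`. -/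
noncomputable def numSquares (w : List α) : ℕ :=
  {f : α → ℕ | ∃ s, s <:+: w ∧ IsAbelianSquare s ∧ parikh s = f}.ncard

lemma numSquares_eq (w : List α) : numSquares w = Pool.Agent.H663R2.AbSq.numSquares w := rfl

end Defs

lemma choose_le (m : ℕ) : ((3 * m).choose m : ℝ) ≤ (27 / 4 : ℝ) ^ m := by
  have h1 := add_pow (1 / 3 : ℝ) (2 / 3) (3 * m)
  have h2 : (1 / 3 : ℝ) ^ m * (2 / 3) ^ (3 * m - m) * ((3 * m).choose m : ℝ) ≤
      ∑ j ∈ Finset.range (3 * m + 1), (1 / 3 : ℝ) ^ j * (2 / 3) ^ (3 * m - j)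
        * ((3 * m).choose j : ℝ) := by
    apply Finset.single_le_sum (f := fun j => (1 / 3 : ℝ) ^ j * (2 / 3) ^ (3 * m - j)
        * ((3 * m).choose j : ℝ)) (fun j _ => by positivity)
    rw [Finset.mem_range]
    omega
  rw [← h1] at h2
  norm_num at h2
  have h3 : 3 * m - m = 2 * m := by omega
  rw [h3] at h2
  have h4 : (1 / 3 : ℝ) ^ m * (2 / 3) ^ (2 * m) = (4 / 27 : ℝ) ^ m := by
    rw [pow_mul, ← mul_pow]
    norm_num
  rw [h4] at h2
  have h5 : (27 / 4 : ℝ) ^ m * (4 / 27 : ℝ) ^ m = 1 := by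
    rw [← mul_pow]
    norm_num
  calc ((3 * m).choose m : ℝ) = (27 / 4 : ℝ) ^ m * ((4 / 27 : ℝ) ^ m * ((3 * m).choose m : ℝ)) := by
        rw [← mul_assoc, h5, one_mul]
    _ ≤ (27 / 4 : ℝ) ^ m * 1 := by gcongr
    _ = (27 / 4 : ℝ) ^ m := mul_one _

lemma four_pow_le (m : ℕ) (hm : 1 ≤ m) : (4 : ℝ) ^ m ≤ 2 * m * ((2 * m).choose m : ℝ) := by
  have := Nat.four_pow_le_two_mul_self_mul_centralBinom m hm
  rw [Nat.centralBinom_eq_two_mul_choose] at this
  exact_mod_cast this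

lemma choose_le_four (m : ℕ) : ((2 * m).choose m : ℝ) ≤ (4 : ℝ) ^ m := by
  have h1 : (2 * m).choose m ≤ 2 ^ (2 * m) := Nat.choose_le_two_pow _ _
  have h2 : (2 : ℕ) ^ (2 * m) = 4 ^ m := by rw [pow_mul]; norm_num
  rw [h2] at h1
  exact_mod_cast h1

/-- The word of stage `t`. -/
lemma stage (k t : ℕ) (hk : 1 ≤ k) (ht : 1 ≤ t) : ∃ w : List (Fin k),
    (w.length : ℝ) ≤ 1332 * k ^ 2 * t * (27 * (27 / 4 : ℝ) ^ k) ^ t ∧
    ((27 : ℝ) ^ k) ^ t / (288 * k ^ 2 * t ^ 2) - 1 ≤ numSquares w := by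
  set m := k * t with hm
  have hm1 : 1 ≤ m := Nat.mul_pos hk ht
  obtain ⟨w, hwl, hwn⟩ := Pool.Agent.H663R2.AbSq.exists_word m hm1
  set c := (3 * m).choose m with hc
  set c2 := (2 * m).choose m with hc2
  have hcpos : 1 ≤ c := Nat.choose_pos (by omega)
  have hmR : (m : ℝ) = k * t := by rw [hm]; push_cast; ring
  have hmpos : (1 : ℝ) ≤ (m : ℝ) := by exact_mod_cast hm1
  have hc27 : (c : ℝ) ≤ (27 / 4 : ℝ) ^ m := choose_le m
  have hc4 : (c2 : ℝ) ≤ (4 : ℝ) ^ m := choose_le_four m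
  have hlow1 : (27 / 4 : ℝ) ^ m ≤ (3 * m + 1) * (c : ℝ) := pow_le_choose m
  have hlow2 : (4 : ℝ) ^ m ≤ 2 * m * (c2 : ℝ) := four_pow_le m hm1
  set D := c * c2 / 18 with hD
  have hD1 : D ≤ Pool.Agent.H663R2.AbSq.numSquares w := by
    rw [hD]
    exact Nat.div_le_of_le_mul hwn
  have hD2 : 2 * D ≤ (27 ^ t) ^ k := by
    have h1 : 18 * D ≤ c * c2 := Nat.mul_div_le _ _
    have h2 : (c * c2 : ℝ) ≤ (27 : ℝ) ^ m := by
      calc (c * c2 : ℝ) ≤ (27 / 4 : ℝ) ^ m * (4 : ℝ) ^ m := by gcongr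
        _ = 27 ^ m := by rw [← mul_pow]; norm_num
    have h3 : c * c2 ≤ 27 ^ m := by exact_mod_cast h2
    have h4 : (27 ^ t) ^ k = 27 ^ m := by rw [hm, ← pow_mul, mul_comm]
    rw [h4]
    omega
  obtain ⟨w', h1, h2⟩ := exists_small (k := k) (M := 27 ^ t) w hD1 hD2 hk
    (Nat.one_le_pow _ _ (by norm_num))
  refine ⟨w', ?_, ?_⟩
  · have h3 : (w.length : ℝ) ≤ 1332 * m * (27 / 4 : ℝ) ^ m := by
      have h4 : (w.length : ℝ) ≤ 1332 * m * c := by
        have hcp : (1 : ℝ) ≤ c := by exact_mod_cast hcpos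
        rw [hwl]
        push_cast
        nlinarith
      calc (w.length : ℝ) ≤ 1332 * m * c := h4
        _ ≤ 1332 * m * (27 / 4 : ℝ) ^ m := by gcongr
    calc (w'.length : ℝ) ≤ ((k * 27 ^ t * w.length : ℕ) : ℝ) := by exact_mod_cast h1
      _ = k * 27 ^ t * w.length := by push_cast; ring
      _ ≤ k * 27 ^ t * (1332 * m * (27 / 4 : ℝ) ^ m) := by gcongr
      _ = 1332 * k ^ 2 * t * (27 * (27 / 4 : ℝ) ^ k) ^ t := by
          rw [hmR, hm, pow_mul, mul_pow]
          ring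
  · have h3 : (c * c2 : ℝ) ≤ 18 * D + 18 := by
      have : c * c2 < 18 * D + 18 := by
        have := Nat.lt_div_mul_add (a := c * c2) (b := 18) (by norm_num)
        rw [hD]
        omega
      have : c * c2 ≤ 18 * D + 18 := this.le
      exact_mod_cast this
    have h4 : (27 : ℝ) ^ m ≤ (3 * m + 1) * (2 * m) * (c * c2) := by
      calc (27 : ℝ) ^ m = (27 / 4 : ℝ) ^ m * 4 ^ m := by rw [← mul_pow]; norm_num
        _ ≤ ((3 * m + 1) * (c : ℝ)) * (2 * m * (c2 : ℝ)) := by gcongr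
        _ = (3 * m + 1) * (2 * m) * (c * c2) := by ring
    have h5 : (27 : ℝ) ^ m ≤ 8 * m ^ 2 * (c * c2) := by
      refine h4.trans ?_
      have : (0 : ℝ) ≤ c * c2 := by positivity
      apply mul_le_mul_of_nonneg_right _ this
      nlinarith
    have h6 : (D : ℝ) ≤ 2 * numSquares w' := by exact_mod_cast h2
    have h7 : (27 : ℝ) ^ m ≤ 288 * m ^ 2 * (numSquares w' + 1) := by
      have h8 : (c * c2 : ℝ) ≤ 36 * numSquares w' + 18 := by linarith
      calc (27 : ℝ) ^ m ≤ 8 * m ^ 2 * (c * c2) := h5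
        _ ≤ 8 * m ^ 2 * (36 * numSquares w' + 18) := by gcongr
        _ ≤ 288 * m ^ 2 * (numSquares w' + 1) := by
            have : (0 : ℝ) ≤ (m : ℝ) ^ 2 := by positivity
            nlinarith
    rw [sub_le_iff_le_add, div_le_iff₀ (by positivity)]
    calc ((27 : ℝ) ^ k) ^ t = 27 ^ m := by rw [hm, pow_mul]
      _ ≤ 288 * m ^ 2 * (numSquares w' + 1) := h7
      _ = (numSquares w' + 1) * (288 * k ^ 2 * t ^ 2) := by
          rw [hmR]
          ring

lemma log_pos_q : 0 < Real.log (27 / 4) := Real.log_pos (by norm_num)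

lemma log_pos_Q : 0 < Real.log 27 := Real.log_pos (by norm_num)

/-- Comparison of the stages. -/
lemma compare (k : ℕ) (hk : 1 ≤ k) {b K : ℝ} (hb : 0 ≤ b) (hK : 0 ≤ K)
    (hlt : b * (k * Real.log (27 / 4) + Real.log 27) < k * Real.log 27) :
    ∀ᶠ t : ℕ in atTop, K * (1332 * k ^ 2 * ((t : ℝ) + 1) * (27 * (27 / 4 : ℝ) ^ k) ^ (t + 1)) ^ b
      < ((27 : ℝ) ^ k) ^ t / (288 * k ^ 2 * t ^ 2) - 1 := by
  set q : ℝ := 27 * (27 / 4 : ℝ) ^ k with hq
  set Q : ℝ := (27 : ℝ) ^ k with hQ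
  have hq0 : 0 < q := by positivity
  have hQ0 : 0 < Q := by positivity
  have hQ1 : 1 < Q := one_lt_pow₀ (by norm_num) (by omega)
  have hkR : (1 : ℝ) ≤ k := by exact_mod_cast hk
  have hlq : Real.log q = k * Real.log (27 / 4) + Real.log 27 := by
    rw [hq, Real.log_mul (by norm_num) (by positivity), Real.log_pow]
    ring
  have hlQ : Real.log Q = k * Real.log 27 := by
    rw [hQ, Real.log_pow]
  have hqb : q ^ b < Q := by
    rw [← Real.log_lt_log_iff (Real.rpow_pos_of_pos hq0 _) hQ0, Real.log_rpow hq0, hlq, hlQ]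
    exact hlt
  have hqb0 : 0 < q ^ b := Real.rpow_pos_of_pos hq0 _
  set ρ : ℝ := q ^ b / Q with hρ
  have hρ0 : 0 < ρ := by positivity
  have hρ1 : ρ < 1 := (div_lt_one hQ0).2 hqb
  set B0 : ℕ := ⌈b⌉₊ with hB0
  set A : ℝ := K * (1332 * k ^ 2) ^ b * 2 ^ B0 * q ^ b * (288 * k ^ 2) with hA
  have hA0 : 0 ≤ A := by positivity
  have T1 := tendsto_pow_const_mul_const_pow_of_abs_lt_one (B0 + 2)
    (r := ρ) (by rw [abs_of_pos hρ0]; exact hρ1)
  have T2 := tendsto_pow_const_mul_const_pow_of_abs_lt_one 2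
    (r := 1 / Q) (by rw [abs_of_pos (by positivity)]; exact (div_lt_one hQ0).2 hQ1)
  have E1 : ∀ᶠ t : ℕ in atTop, (t : ℝ) ^ (B0 + 2) * ρ ^ t < 1 / (2 * (A + 1)) :=
    T1.eventually (gt_mem_nhds (by positivity))
  have E2 : ∀ᶠ t : ℕ in atTop, (t : ℝ) ^ 2 * (1 / Q) ^ t < 1 / (2 * (288 * k ^ 2)) :=
    T2.eventually (gt_mem_nhds (by positivity))
  filter_upwards [E1, E2, eventually_ge_atTop 1] with t h1 h2 ht
  have htR : (1 : ℝ) ≤ t := by exact_mod_cast ht
  have hQt : 0 < Q ^ t := by positivity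
  -- the main term
  have hmain : K * (1332 * k ^ 2 * ((t : ℝ) + 1) * q ^ (t + 1)) ^ b * (288 * k ^ 2 * t ^ 2)
      ≤ A * ((t : ℝ) ^ (B0 + 2) * ρ ^ t) * Q ^ t := by
    have e1 : (1332 * k ^ 2 * ((t : ℝ) + 1) * q ^ (t + 1)) ^ b =
        (1332 * k ^ 2) ^ b * ((t : ℝ) + 1) ^ b * ((q ^ b) ^ t * q ^ b) := by
      rw [Real.mul_rpow (by positivity) (by positivity), Real.mul_rpow (by positivity)
        (by positivity)]
      congr 1
      rw [← Real.rpow_natCast q (t + 1), ← Real.rpow_mul hq0.le, ← Real.rpow_natCast (q ^ b) t,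
        ← Real.rpow_mul hq0.le, ← Real.rpow_add hq0]
      congr 1
      push_cast
      ring
    have e2 : ((t : ℝ) + 1) ^ b ≤ 2 ^ B0 * (t : ℝ) ^ B0 := by
      calc ((t : ℝ) + 1) ^ b ≤ ((t : ℝ) + 1) ^ (B0 : ℝ) :=
            Real.rpow_le_rpow_of_exponent_le (by linarith) (Nat.le_ceil b)
        _ = ((t : ℝ) + 1) ^ B0 := Real.rpow_natCast _ _
        _ ≤ (2 * t) ^ B0 := pow_le_pow_left₀ (by positivity) (by linarith) _
        _ = 2 ^ B0 * (t : ℝ) ^ B0 := mul_pow _ _ _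
    have e3 : ρ ^ t * Q ^ t = (q ^ b) ^ t := by
      rw [← mul_pow, hρ, div_mul_cancel₀ _ hQ0.ne']
    calc K * (1332 * k ^ 2 * ((t : ℝ) + 1) * q ^ (t + 1)) ^ b * (288 * k ^ 2 * t ^ 2)
        = K * ((1332 * k ^ 2) ^ b * ((t : ℝ) + 1) ^ b * ((q ^ b) ^ t * q ^ b))
          * (288 * k ^ 2 * t ^ 2) := by rw [e1]
      _ ≤ K * ((1332 * k ^ 2) ^ b * (2 ^ B0 * (t : ℝ) ^ B0) * ((q ^ b) ^ t * q ^ b))
          * (288 * k ^ 2 * t ^ 2) := by gcongr
      _ = A * ((t : ℝ) ^ (B0 + 2) * (q ^ b) ^ t) := by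
          rw [hA]
          ring
      _ = A * ((t : ℝ) ^ (B0 + 2) * ρ ^ t) * Q ^ t := by
          rw [← e3]
          ring
  have h3 : A * ((t : ℝ) ^ (B0 + 2) * ρ ^ t) < 1 / 2 := by
    have h4 : A * ((t : ℝ) ^ (B0 + 2) * ρ ^ t) ≤ (A + 1) * ((t : ℝ) ^ (B0 + 2) * ρ ^ t) := by
      apply mul_le_mul_of_nonneg_right (by linarith) (by positivity)
    have h5 : (A + 1) * ((t : ℝ) ^ (B0 + 2) * ρ ^ t) < (A + 1) * (1 / (2 * (A + 1))) :=
      mul_lt_mul_of_pos_left h1 (by linarith)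
    have h6 : (A + 1) * (1 / (2 * (A + 1))) = 1 / 2 := by field_simp
    linarith
  have h4 : 288 * k ^ 2 * t ^ 2 < 1 / 2 * Q ^ t := by
    have h5 : (288 * k ^ 2 : ℝ) * ((t : ℝ) ^ 2 * (1 / Q) ^ t)
        < (288 * k ^ 2 : ℝ) * (1 / (2 * (288 * k ^ 2))) :=
      mul_lt_mul_of_pos_left h2 (by positivity)
    have h6 : (288 * k ^ 2 : ℝ) * (1 / (2 * (288 * k ^ 2))) = 1 / 2 := by field_simp
    rw [h6] at h5
    have h7 : (288 * k ^ 2 * t ^ 2 : ℝ) =
        (288 * k ^ 2 : ℝ) * ((t : ℝ) ^ 2 * (1 / Q) ^ t) * Q ^ t := by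
      rw [one_div, inv_pow]
      field_simp
    rw [h7]
    exact mul_lt_mul_of_pos_right h5 hQt
  have h5 : A * ((t : ℝ) ^ (B0 + 2) * ρ ^ t) * Q ^ t < 1 / 2 * Q ^ t :=
    mul_lt_mul_of_pos_right h3 hQt
  rw [lt_sub_iff_add_lt, lt_div_iff₀ (by positivity)]
  calc (K * (1332 * k ^ 2 * ((t : ℝ) + 1) * q ^ (t + 1)) ^ b + 1) * (288 * k ^ 2 * t ^ 2)
      = K * (1332 * k ^ 2 * ((t : ℝ) + 1) * q ^ (t + 1)) ^ b * (288 * k ^ 2 * t ^ 2)
        + 288 * k ^ 2 * t ^ 2 := by ring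
    _ < 1 / 2 * Q ^ t + 1 / 2 * Q ^ t := by linarith
    _ = Q ^ t := by ring

/-- The main theorem for a fixed alphabet. -/
lemma fixed (k : ℕ) (hk : 1 ≤ k) (β : ℝ)
    (hβ : β < k * Real.log 27 / (k * Real.log (27 / 4) + Real.log 27)) (C : ℝ) :
    ∃ N : ℕ, ∀ n : ℕ, N ≤ n → ∃ w : List (Fin k), w.length = n ∧
      C * (n : ℝ) ^ β < numSquares w := by
  have hkR : (1 : ℝ) ≤ k := by exact_mod_cast hk
  have hl := log_pos_q
  have hL := log_pos_Q
  have hden : 0 < k * Real.log (27 / 4) + Real.log 27 := by positivity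
  set b := max β 0 with hb
  have hb0 : 0 ≤ b := le_max_right _ _
  have hblt : b * (k * Real.log (27 / 4) + Real.log 27) < k * Real.log 27 := by
    rw [← lt_div_iff₀ hden]
    apply max_lt hβ
    positivity
  set K := max C 0 with hK
  have hK0 : 0 ≤ K := le_max_right _ _
  obtain ⟨T, hT⟩ := eventually_atTop.mp (compare k hk hb0 hK0 hblt)
  set q : ℝ := 27 * (27 / 4 : ℝ) ^ k with hq
  have hq1 : 1 ≤ q := by
    have : (1 : ℝ) ≤ (27 / 4 : ℝ) ^ k := one_le_pow₀ (by norm_num)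
    rw [hq]
    linarith
  set B : ℕ → ℝ := fun t => 1332 * k ^ 2 * t * q ^ t with hB
  have hBt : ∀ t : ℕ, (t : ℝ) ≤ B t := by
    intro t
    have h1 : (1 : ℝ) ≤ q ^ t := one_le_pow₀ hq1
    have h2 : (1 : ℝ) ≤ (k : ℝ) ^ 2 := one_le_pow₀ hkR
    have h3 : (0 : ℝ) ≤ t := Nat.cast_nonneg _
    have h4 : (1 : ℝ) ≤ 1332 * k ^ 2 * q ^ t := by nlinarith
    calc (t : ℝ) = 1 * t := (one_mul _).symm
      _ ≤ (1332 * k ^ 2 * q ^ t) * t := mul_le_mul_of_nonneg_right h4 h3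
      _ = B t := by rw [hB]; ring
  refine ⟨⌈B (T + 1)⌉₊ + 1, fun n hn => ?_⟩
  have hnB : B (T + 1) ≤ n := by
    have h1 : B (T + 1) ≤ ⌈B (T + 1)⌉₊ := Nat.le_ceil _
    have h2 : ((⌈B (T + 1)⌉₊ : ℕ) : ℝ) ≤ n := by exact_mod_cast (by omega)
    linarith
  classical
  have hTn : T + 1 ≤ n := by
    have h1 := hBt (T + 1)
    have h2 : ((T + 1 : ℕ) : ℝ) ≤ n := h1.trans hnB
    exact_mod_cast h2
  set t := Nat.findGreatest (fun t => B t ≤ n) n with ht
  have ht1 : T + 1 ≤ t := Nat.le_findGreatest hTn hnB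
  have ht2 : B t ≤ n := Nat.findGreatest_spec (P := fun t => B t ≤ n) hTn hnB
  have ht3 : (n : ℝ) < B (t + 1) := by
    by_contra hcon
    push Not at hcon
    have h1 : t + 1 ≤ n := by
      have h2 : ((t + 1 : ℕ) : ℝ) ≤ n := (hBt (t + 1)).trans hcon
      exact_mod_cast h2
    have h3 := Nat.le_findGreatest (P := fun t => B t ≤ n) h1 hcon
    omega
  obtain ⟨w, hw1, hw2⟩ := stage k t hk (by omega)
  have hw3 : w.length ≤ n := by
    have h1 : (w.length : ℝ) ≤ n := hw1.trans ht2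
    exact_mod_cast h1
  obtain ⟨w', hw4, hw5⟩ := exists_pad (⟨0, hk⟩ : Fin k) w hw3
  refine ⟨w', hw4, ?_⟩
  have hn1 : (1 : ℝ) ≤ n := by
    have : 1 ≤ n := by omega
    exact_mod_cast this
  have h6 := hT t (by omega)
  have h7 : (numSquares w : ℝ) ≤ numSquares w' := by exact_mod_cast hw5
  have h8 : (n : ℝ) ^ b ≤ (B (t + 1)) ^ b := Real.rpow_le_rpow (by positivity) ht3.le hb0
  have h9 : B (t + 1) = 1332 * k ^ 2 * ((t : ℝ) + 1) * q ^ (t + 1) := by
    rw [hB]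
    push_cast
    ring
  calc C * (n : ℝ) ^ β ≤ K * (n : ℝ) ^ b := by
        apply mul_le_mul (le_max_left _ _) _ (by positivity) hK0
        exact Real.rpow_le_rpow_of_exponent_le hn1 (le_max_left _ _)
    _ ≤ K * (B (t + 1)) ^ b := mul_le_mul_of_nonneg_left h8 hK0
    _ = K * (1332 * k ^ 2 * ((t : ℝ) + 1) * q ^ (t + 1)) ^ b := by rw [h9]
    _ < ((27 : ℝ) ^ k) ^ t / (288 * k ^ 2 * t ^ 2) - 1 := h6
    _ ≤ numSquares w := hw2
    _ ≤ numSquares w' := h7

/-- **Main theorem.** (1) For every `k ≥ 1`, every `β < k log 27 / (k log (27 / 4) + log 27)` and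
every `C`, for all sufficiently large `n` there is a word of length `n` over the alphabet with `k`
letters that contains more than `C n ^ β` pairwise inequivalent abelian squares. (2) For every
`β < log 27 / log (27 / 4)` there is such an alphabet size `k`. (3) Already over an alphabet with 12
letters, for every `C` and all sufficiently large `n`, some word of length `n` contains more than
`C n ^ (3 / 2)` pairwise inequivalent abelian squares. -/
theorem result :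
    (∀ k : ℕ, 1 ≤ k → ∀ β : ℝ, β < k * Real.log 27 / (k * Real.log (27 / 4) + Real.log 27) →
      ∀ C : ℝ, ∃ N : ℕ, ∀ n : ℕ, N ≤ n → ∃ w : List (Fin k), w.length = n ∧
        C * (n : ℝ) ^ β < numSquares w) ∧
    (∀ β : ℝ, β < Real.log 27 / Real.log (27 / 4) → ∃ k : ℕ, ∀ C : ℝ, ∃ N : ℕ, ∀ n : ℕ, N ≤ n →
      ∃ w : List (Fin k), w.length = n ∧ C * (n : ℝ) ^ β < numSquares w) ∧
    (∀ C : ℝ, ∃ N : ℕ, ∀ n : ℕ, N ≤ n → ∃ w : List (Fin 12), w.length = n ∧
      C * (n : ℝ) ^ (3 / 2 : ℝ) < numSquares w) := by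
  have hl := log_pos_q
  have hL := log_pos_Q
  refine ⟨fixed, fun β hβ => ?_, fun C => fixed 12 (by norm_num) (3 / 2) ?_ C⟩
  · rw [lt_div_iff₀ hl] at hβ
    obtain ⟨k, hk⟩ := exists_nat_gt (max 0 (β * Real.log 27) /
      (Real.log 27 - β * Real.log (27 / 4)))
    have hpos : 0 < Real.log 27 - β * Real.log (27 / 4) := by linarith
    rw [div_lt_iff₀ hpos] at hk
    have hk1 : 1 ≤ k := by
      rcases Nat.eq_zero_or_pos k with h | h
      · rw [h] at hk
        have := le_max_left 0 (β * Real.log 27)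
        simp only [Nat.cast_zero, zero_mul] at hk
        linarith
      · exact h
    have hkR : (1 : ℝ) ≤ k := by exact_mod_cast hk1
    refine ⟨k, fun C => fixed k hk1 β ?_ C⟩
    have hden : 0 < k * Real.log (27 / 4) + Real.log 27 := by positivity
    rw [lt_div_iff₀ hden]
    have := le_max_right 0 (β * Real.log 27)
    nlinarith
  · have hden : 0 < ((12 : ℕ) : ℝ) * Real.log (27 / 4) + Real.log 27 := by positivity
    rw [lt_div_iff₀ hden]
    -- `3 ^ 45 < 2 ^ 72`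
    have h1 : Real.log ((3 : ℝ) ^ 45) < Real.log ((2 : ℝ) ^ 72) :=
      Real.log_lt_log (by norm_num) (by norm_num)
    rw [Real.log_pow, Real.log_pow] at h1
    have h2 : Real.log 27 = 3 * Real.log 3 := by
      rw [show (27 : ℝ) = 3 ^ 3 by norm_num, Real.log_pow]
      norm_num
    have h3 : Real.log (27 / 4) = 3 * Real.log 3 - 2 * Real.log 2 := by
      rw [Real.log_div (by norm_num) (by norm_num), h2, show (4 : ℝ) = 2 ^ 2 by norm_num,
        Real.log_pow]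
      norm_num
    rw [h2, h3]
    push_cast at h1 ⊢
    linarith

end Pool.Agent.Results.MP_72cd34_co.FixedAlphabet
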